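import Pool.Agent.Lib.MP_bae66e_nt.Mg.G079
import Pool.Agent.Lib.MP_bae66e_nt.Mg.G074

/-!
# G3a: the energy in the notation of LL
-/

set_option autoImplicit false

namespace Pool.Agent.PP

open Finset MeasureTheory Real
open Pool.Agent.MC (ee expSum frac frac' arcSum fareySet)
open Pool.Agent.Lib.MP_bae66e_nt.AP3 (Rough rset dset prI KT flEta FLP cset Om0 xb prm)

/-- the function of LL on the natural numbers -/
noncomputable def EL (W Y n : ℕ) : ℝ := if 1 ≤ n ∧ n ≤ Y then (if n.Prime then Real.log Y else 0) - nu W n else 0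

/-- `prm w = primorial w` (both are the product of the primes `≤ w`). -/
lemma prm_eq_primorial (w : ℕ) : prm w = primorial w := by
  unfold prm primorial
  apply Finset.prod_congr _ fun _ _ => rfl
  ext p
  rw [Pool.Agent.Lib.MP_bae66e_nt.AP3.mem_prI, Finset.mem_filter, Finset.mem_range]
  constructor
  · rintro ⟨⟨_, h1⟩, h2⟩
    exact ⟨Nat.lt_succ_of_le h1, h2⟩
  · rintro ⟨h1, h2⟩
    exact ⟨⟨h2.pos, Nat.lt_succ_iff.mp h1⟩, h2⟩

private lemma G3a_F (W Y : ℕ) (m : ℕ) :
    Pool.Agent.Lib.MP_bae66e_nt.LL.fP Y (m : ℤ) - Pool.Agent.Lib.MP_bae66e_nt.LL.gW W Y (m : ℤ)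
      = EL W Y m := by
  unfold Pool.Agent.Lib.MP_bae66e_nt.LL.fP Pool.Agent.Lib.MP_bae66e_nt.LL.gW EL
    Pool.Agent.Lib.MP_bae66e_nt.LL.nu nu
  by_cases h : 1 ≤ m ∧ m ≤ Y
  · have h1 : (1 : ℤ) ≤ (m : ℤ) := by exact_mod_cast h.1
    have h2 : (m : ℤ) ≤ (Y : ℤ) := by exact_mod_cast h.2
    have h3 : IsCoprime (m : ℤ) (W : ℤ) ↔ m.Coprime W := Nat.isCoprime_iff_coprime
    simp only [h1, h2, h.1, h.2, true_and, and_self, if_true, Int.toNat_natCast, h3]
  · have h' : ¬ ((1 : ℤ) ≤ (m : ℤ) ∧ (m : ℤ) ≤ (Y : ℤ)) := by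
      rintro ⟨h1, h2⟩
      exact h ⟨by exact_mod_cast h1, by exact_mod_cast h2⟩
    rw [if_neg h', if_neg h, if_neg (fun hh => h' ⟨hh.1, hh.2.1⟩), sub_zero]

private lemma G3a_F_neg (W Y : ℕ) (n : ℤ) (hn : n ≤ 0) :
    Pool.Agent.Lib.MP_bae66e_nt.LL.fP Y n - Pool.Agent.Lib.MP_bae66e_nt.LL.gW W Y n = 0 := by
  unfold Pool.Agent.Lib.MP_bae66e_nt.LL.fP Pool.Agent.Lib.MP_bae66e_nt.LL.gW
  rw [if_neg (fun h => absurd h.1 (by omega)), if_neg (fun h => absurd h.1 (by omega)), sub_zero]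

private lemma G3a_EL_zero (W Y n : ℕ) (h : ¬ (1 ≤ n ∧ n ≤ Y)) : EL W Y n = 0 := by
  unfold EL
  rw [if_neg h]

private lemma G3a_sum (Y : ℕ) (f : ℤ → ℝ) :
    ∑ n ∈ Finset.Icc (1 : ℤ) (Y : ℤ), f n = ∑ m ∈ Finset.Icc 1 Y, f (m : ℤ) := by
  symm
  apply Finset.sum_nbij' (fun m : ℕ => (m : ℤ)) (fun n : ℤ => n.toNat)
  · intro a ha
    rw [Finset.mem_Icc] at ha ⊢
    omega
  · intro a ha
    rw [Finset.mem_Icc] at ha ⊢
    omega
  · intro a _
    exact Int.toNat_natCast a
  · intro a ha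
    rw [Finset.mem_Icc] at ha
    exact Int.toNat_of_nonneg (by omega)
  · intro a _
    rfl

/-- `E n = log Y 1_P(n) - ν(n)` on `[1, Y]` as a function on `ℤ` is `EL (primorial w) Y` on the naturals (`IsCoprime (n : ℤ) W ↔ n.Coprime W`), and its correlation
at `d` is `corr (EL W Y) Y |d|` for `|d| < Y` (shift `n` by `d` if `d < 0`), and `0` for `|d| = Y` (`n + Y` is outside `[1, Y]` for `n ≥ 1`). -/
lemma corr_LL (w Y : ℕ) (d : ℤ) (hd : d ∈ Finset.Icc (-(Y : ℤ)) (Y : ℤ)) :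
    Pool.Agent.Lib.MP_bae66e_nt.LL.corr Y (fun n => Pool.Agent.Lib.MP_bae66e_nt.LL.fP Y n
      - Pool.Agent.Lib.MP_bae66e_nt.LL.gW (primorial w) Y n) d
      = if d.natAbs < Y then corr (EL (primorial w) Y) Y d.natAbs else 0 := by
  have hk : d.natAbs ≤ Y := by
    rw [Finset.mem_Icc] at hd
    omega
  have key : Pool.Agent.Lib.MP_bae66e_nt.LL.corr Y (fun n => Pool.Agent.Lib.MP_bae66e_nt.LL.fP Y n
      - Pool.Agent.Lib.MP_bae66e_nt.LL.gW (primorial w) Y n) d
      = corr (EL (primorial w) Y) Y d.natAbs := by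
    unfold Pool.Agent.Lib.MP_bae66e_nt.LL.corr corr
    rw [G3a_sum]
    set W := primorial w
    rcases Int.natAbs_eq d with h | h
    · set k := d.natAbs with hkd
      rw [h]
      rw [← Finset.sum_subset (Finset.Icc_subset_Icc_right (Nat.sub_le Y k))]
      · apply Finset.sum_congr rfl
        intro m _
        have e : ((m : ℤ) + (k : ℤ)) = ((m + k : ℕ) : ℤ) := by push_cast; ring
        simp only [e, G3a_F]
      · intro m hm hm'
        rw [Finset.mem_Icc] at hm hm'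
        have e : ((m : ℤ) + (k : ℤ)) = ((m + k : ℕ) : ℤ) := by push_cast; ring
        simp only [e, G3a_F]
        rw [G3a_EL_zero W Y (m + k) (by omega), mul_zero]
    · set k := d.natAbs with hkd
      rw [h]
      have hsub : Finset.Icc (k + 1) Y ⊆ Finset.Icc 1 Y := Finset.Icc_subset_Icc_left (by omega)
      rw [← Finset.sum_subset hsub]
      · symm
        apply Finset.sum_nbij' (fun m : ℕ => m + k) (fun m : ℕ => m - k)
        · intro a ha
          rw [Finset.mem_Icc] at ha ⊢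
          omega
        · intro a ha
          rw [Finset.mem_Icc] at ha ⊢
          omega
        · intro a _
          show a + k - k = a
          omega
        · intro a ha
          rw [Finset.mem_Icc] at ha
          show a - k + k = a
          omega
        · intro a ha
          have e : (((a + k : ℕ) : ℤ) + -(k : ℤ)) = (a : ℤ) := by push_cast; ring
          simp only [e, G3a_F]
          rw [mul_comm]
      · intro m hm hm'
        rw [Finset.mem_Icc] at hm hm'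
        have h0 : ((m : ℤ) + -(k : ℤ)) ≤ 0 := by omega
        have h1 := G3a_F_neg W Y _ h0
        show _ * (Pool.Agent.Lib.MP_bae66e_nt.LL.fP Y ((m : ℤ) + -(k : ℤ))
          - Pool.Agent.Lib.MP_bae66e_nt.LL.gW W Y ((m : ℤ) + -(k : ℤ))) = 0
        rw [h1, mul_zero]
  rw [key]
  by_cases hlt : d.natAbs < Y
  · rw [if_pos hlt]
  · rw [if_neg hlt]
    have : d.natAbs = Y := by omega
    unfold corr
    rw [this, Nat.sub_self, Finset.Icc_eq_empty (by omega), Finset.sum_empty]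

end Pool.Agent.PP
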