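import Pool.Agent.Lib.MP_bae66e_nt.Mg.G079

/-!
# B7b: choice of the parameters
-/

set_option autoImplicit false

namespace Pool.Agent.PP

open Finset MeasureTheory Real
open Pool.Agent.MC (ee expSum frac frac' arcSum fareySet)
open Pool.Agent.Lib.MP_bae66e_nt.AP3 (Rough rset dset prI KT flEta FLP cset Om0 xb prm)

private lemma aux_a (c l b : ℝ) (hc : 0 ≤ c) (hl : 0 ≤ l) (hb : b ≤ c + 40 + 40 * l) :
    b ≤ (c + 40) * (1 + l) := by
  have h := mul_nonneg hc hl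
  have e : (c + 40) * (1 + l) = c + 40 + 40 * l + c * l := by ring
  rw [e]
  linarith

private lemma aux_b (E w z : ℝ) (h1 : E * E = w) (h2 : 2 ≤ E) (h3 : w < z + 1) : E ≤ z := by
  have h4 : 2 * E ≤ E * E := mul_le_mul_of_nonneg_right h2 (by linarith)
  linarith

private lemma aux_c (a l J : ℝ) (h1 : 2 * l + 1 ≤ J) (h2 : 1 / 2 ≤ a) (hl : 0 ≤ l) :
    a + l ≤ a * J := by
  have h3 : a * (2 * l + 1) ≤ a * J := mul_le_mul_of_nonneg_left h1 (by linarith)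
  have h4 : 1 / 2 * l ≤ a * l := mul_le_mul_of_nonneg_right h2 hl
  have e : a * (2 * l + 1) = 2 * (a * l) + a := by ring
  rw [e] at h3
  linarith

private lemma aux_d (v L a P : ℝ) (h1 : v ≤ L / 100) (hL : 0 < L) (h2 : 2 * L ≤ P)
    (h3 : 1 / 2 ≤ a) : v < a * P := by
  have h4 : 1 / 2 * P ≤ a * P := mul_le_mul_of_nonneg_right h3 (by linarith)
  linarith


private lemma aux_L (A : ℝ) (hA : 0 < A) : ∃ y₀ : ℕ, ∀ y : ℕ, y₀ ≤ y →
    1 ≤ Real.log y ∧ A * (1 + Real.log (Real.log y)) ^ 2 ≤ Real.log y := by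
  have h1 := (Real.isLittleO_pow_log_id_atTop (n := 2)).bound
    (show (0 : ℝ) < 1 / (4 * A) by positivity)
  have h2 : ∀ᶠ x : ℝ in Filter.atTop, Real.exp 1 ≤ x := Filter.eventually_ge_atTop _
  have h3 : Filter.Tendsto (fun y : ℕ => Real.log (y : ℝ)) Filter.atTop Filter.atTop :=
    Real.tendsto_log_atTop.comp tendsto_natCast_atTop_atTop
  have h4 := h3.eventually (h1.and h2)
  rw [Filter.eventually_atTop] at h4
  obtain ⟨y₀, hy₀⟩ := h4
  refine ⟨y₀, fun y hy => ?_⟩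
  obtain ⟨h5, h6⟩ := hy₀ y hy
  have hL0 : 0 < Real.log y := lt_of_lt_of_le (Real.exp_pos 1) h6
  have hl1 : 1 ≤ Real.log (Real.log y) := by rwa [Real.le_log_iff_exp_le hL0]
  have hL1 : 1 ≤ Real.log y := by
    have := Real.add_one_le_exp (1 : ℝ)
    linarith
  refine ⟨hL1, ?_⟩
  rw [id_eq, Real.norm_eq_abs, Real.norm_eq_abs, abs_of_pos hL0,
    abs_of_nonneg (show (0 : ℝ) ≤ Real.log (Real.log y) ^ 2 by positivity),
    div_mul_eq_mul_div, one_mul, le_div_iff₀ (by positivity)] at h5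
  calc A * (1 + Real.log (Real.log y)) ^ 2 ≤ A * (2 * Real.log (Real.log y)) ^ 2 := by
        apply mul_le_mul_of_nonneg_left _ hA.le
        apply pow_le_pow_left₀ (by linarith)
        linarith
    _ = Real.log (Real.log y) ^ 2 * (4 * A) := by ring
    _ ≤ Real.log y := h5

/-- Choice of `b`, `z`, `J`. PROOF. `b = max b0 ⌈log Q⌉₊ + 1 ≤ b0 + 2 + log Q`, `z = ⌊y^(1/(100 b))⌋₊`, `J` minimal with `z < 2^(2^J)`, so that
`2^(J-1) ≤ log₂ z + 1 ≤ 2 + 2 log y` and `J ≤ 4 + 2 log (1 + log y)`. As `Q ≤ (log y)^30`, `b ≤ b0 + 2 + 30 log log y`, so for `y` large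
`log z ≥ log y/(200 b) ≥ √(log y)`, `z ≥ (log y)^120 ≥ Q⁴`; `(J+1)(b+J+1) log 3 ≤ C (1 + log log y)² ≤ (log y)/100` and
`(2 b + 4) log z ≤ (6 b/(100 b)) log y`, so `E0 ≤ y^(1/10)`. -/
lemma choose_param (b0 : ℕ) : ∃ y₀ : ℕ, ∀ y : ℕ, y₀ ≤ y → ∀ Q : ℝ, 1 ≤ Q → Q ≤ Real.log y ^ 30 →
    ∃ b J z : ℕ, b0 ≤ b ∧ Real.log Q ≤ b ∧ (b : ℝ) ≤ b0 + 3 + Real.log Q ∧ 2 ≤ z ∧
      z < 2 ^ (2 ^ J) ∧ z ^ 2 ≤ y ∧ Q ^ 4 ≤ z ∧ Real.log y / (200 * b) ≤ Real.log z ∧
      Real.log y ^ 6 ≤ z ∧ E0 J b z ≤ (y : ℝ) ^ (1 / 10 : ℝ) := by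
  have hA : (0 : ℝ) < 24000 * (b0 + 40) := by positivity
  obtain ⟨y₀, hy₀⟩ := aux_L (24000 * (b0 + 40)) hA
  refine ⟨max 3 y₀, ?_⟩
  intro y hy Q hQ1 hQ
  obtain ⟨hL1, hAL⟩ := hy₀ y (le_trans (le_max_right _ _) hy)
  have hy3 : 3 ≤ y := le_trans (le_max_left _ _) hy
  have hyr : (3 : ℝ) ≤ y := by exact_mod_cast hy3
  have hy0 : (0 : ℝ) < y := by linarith
  obtain ⟨L, hL⟩ : ∃ L, L = Real.log (y : ℝ) := ⟨_, rfl⟩
  rw [← hL] at hL1 hAL hQ ⊢
  obtain ⟨l, hl⟩ : ∃ l, l = Real.log L := ⟨_, rfl⟩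
  rw [← hl] at hAL
  have hL0 : 0 < L := by linarith
  have hl0 : 0 ≤ l := by rw [hl]; exact Real.log_nonneg hL1
  have hb0 : (0 : ℝ) ≤ b0 := Nat.cast_nonneg b0
  have hlQ : Real.log Q ≤ 30 * l := by
    have h1 := Real.log_le_log (by linarith) hQ
    rw [Real.log_pow] at h1
    rw [hl]
    exact_mod_cast h1
  have hlQ0 : 0 ≤ Real.log Q := Real.log_nonneg hQ1
  obtain ⟨b, hb⟩ : ∃ b, b = b0 + 1 + ⌈Real.log Q⌉₊ := ⟨_, rfl⟩
  have hbr : (b : ℝ) = b0 + 1 + (⌈Real.log Q⌉₊ : ℝ) := by rw [hb]; push_cast; ring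
  have hc1 := Nat.le_ceil (Real.log Q)
  have hc2 := Nat.ceil_lt_add_one hlQ0
  have hb1 : (1 : ℝ) ≤ b := by linarith
  have hb2 : (b : ℝ) ≤ b0 + 2 + 30 * l := by linarith
  have hbp : (0 : ℝ) < b := by linarith
  -- consequences of the size of L
  have hsq : 1 + l ≤ (1 + l) ^ 2 := le_self_pow₀ (by linarith) two_ne_zero
  have k1 : 120 * l * (200 * (b : ℝ)) ≤ L := by
    refine le_trans ?_ hAL
    have h1 : (b : ℝ) ≤ (b0 + 40) * (1 + l) := aux_a _ _ _ hb0 hl0 (by linarith)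
    have h2 : l * (b : ℝ) ≤ (1 + l) * ((b0 + 40) * (1 + l)) :=
      mul_le_mul (by linarith) h1 hbp.le (by linarith)
    calc 120 * l * (200 * (b : ℝ)) = 24000 * (l * b) := by ring
      _ ≤ 24000 * ((1 + l) * ((b0 + 40) * (1 + l))) := mul_le_mul_of_nonneg_left h2 (by norm_num)
      _ = 24000 * ((b0 : ℝ) + 40) * (1 + l) ^ 2 := by ring
  have k2 : 200 * (b : ℝ) ≤ L := by
    refine le_trans ?_ hAL
    have h1 : (b : ℝ) ≤ (b0 + 40) * (1 + l) := aux_a _ _ _ hb0 hl0 (by linarith)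
    have h2 : (b0 + 40 : ℝ) * (1 + l) ≤ (b0 + 40) * (1 + l) ^ 2 :=
      mul_le_mul_of_nonneg_left hsq (by linarith)
    have h3 : (0 : ℝ) ≤ (b0 + 40) * (1 + l) ^ 2 := by positivity
    rw [mul_assoc]
    linarith
  have k3 : (2 * l + 4) * (b0 + 7 + 32 * l) * 2 ≤ L / 25 := by
    have h1 : (2 * l + 4) ≤ 4 * (1 + l) := by linarith
    have h2 : (b0 + 7 + 32 * l : ℝ) ≤ (b0 + 40) * (1 + l) :=
      aux_a _ _ _ hb0 hl0 (by linarith)
    have h3 : (2 * l + 4) * (b0 + 7 + 32 * l : ℝ) ≤ (4 * (1 + l)) * ((b0 + 40) * (1 + l)) :=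
      mul_le_mul h1 h2 (by positivity) (by positivity)
    have h4 : (0 : ℝ) ≤ (b0 + 40) * (1 + l) ^ 2 := by positivity
    have e1 : (4 * (1 + l)) * ((b0 + 40) * (1 + l)) = 4 * (((b0 : ℝ) + 40) * (1 + l) ^ 2) := by ring
    rw [e1] at h3
    rw [mul_assoc (24000 : ℝ)] at hAL
    linarith
  -- z
  obtain ⟨v, hv⟩ : ∃ v, v = L / (100 * b) := ⟨_, rfl⟩
  have hv2 : 2 ≤ v := by
    rw [hv, le_div_iff₀ (by positivity)]
    linarith
  obtain ⟨z, hz⟩ : ∃ z, z = ⌊Real.exp v⌋₊ := ⟨_, rfl⟩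
  have hz1 : (z : ℝ) ≤ Real.exp v := by rw [hz]; exact Nat.floor_le (Real.exp_pos _).le
  have hz2 : Real.exp v < z + 1 := by rw [hz]; exact Nat.lt_floor_add_one _
  have hev : 3 ≤ Real.exp v := by
    have := Real.add_one_le_exp v
    linarith
  have hz3 : 2 ≤ z := by
    rw [hz]; apply Nat.le_floor; norm_num; linarith
  have hz3r : (2 : ℝ) ≤ z := by exact_mod_cast hz3
  have hz0 : (0 : ℝ) < z := by linarith
  have hlz1 : Real.log z ≤ v := by
    have := Real.log_le_log hz0 hz1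
    rwa [Real.log_exp] at this
  have hhalf : Real.exp (v / 2) ≤ z := by
    have h1 : Real.exp (v / 2) * Real.exp (v / 2) = Real.exp v := by
      rw [← Real.exp_add, add_halves]
    have h2 : 2 ≤ Real.exp (v / 2) := by
      have := Real.add_one_le_exp (v / 2)
      linarith
    exact aux_b _ _ _ h1 h2 hz2
  have hlz2 : v / 2 ≤ Real.log z := by
    rw [Real.le_log_iff_exp_le hz0]
    exact hhalf
  have hv120 : 120 * l ≤ v / 2 := by
    rw [hv, div_div, le_div_iff₀ (by positivity)]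
    linarith
  have hy_exp : (y : ℝ) = Real.exp L := by rw [hL, Real.exp_log hy0]
  have hvL : v ≤ L / 100 := by
    rw [hv]
    apply div_le_div_of_nonneg_left hL0.le (by norm_num)
    linarith
  -- J
  obtain ⟨J, hJ⟩ : ∃ J, J = ⌈2 * l⌉₊ + 1 := ⟨_, rfl⟩
  have hJ1 : 2 * l + 1 ≤ J := by
    rw [hJ]; push_cast; linarith [Nat.le_ceil (2 * l)]
  have hJ2 : (J : ℝ) ≤ 2 * l + 2 := by
    rw [hJ]; push_cast; linarith [Nat.ceil_lt_add_one (show 0 ≤ 2 * l by linarith)]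
  have hl2 : (1 : ℝ) / 2 ≤ Real.log 2 := by linarith [Real.log_two_gt_d9]
  have hJL : 2 * L ≤ (2 : ℝ) ^ J := by
    have h1 : (2 : ℝ) ^ J = Real.exp (Real.log 2 * J) := by
      rw [mul_comm, Real.exp_nat_mul, Real.exp_log (by norm_num)]
    rw [h1]
    have h2 : Real.log 2 + l ≤ Real.log 2 * J := aux_c _ _ _ hJ1 hl2 hl0
    calc 2 * L = Real.exp (Real.log 2 + l) := by
          rw [Real.exp_add, Real.exp_log (by norm_num), hl, Real.exp_log hL0]
      _ ≤ Real.exp (Real.log 2 * J) := Real.exp_le_exp.2 h2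
  refine ⟨b, J, z, by omega, by linarith, by linarith, hz3, ?_, ?_, ?_, ?_, ?_, ?_⟩
  · -- z < 2^(2^J)
    have h1 : (z : ℝ) < ((2 ^ (2 ^ J) : ℕ) : ℝ) := by
      push_cast
      have h2 : (2 : ℝ) ^ (2 ^ J) = Real.exp (Real.log 2 * (2 : ℝ) ^ J) := by
        have h3 : Real.exp (((2 ^ J : ℕ) : ℝ) * Real.log 2) = (Real.exp (Real.log 2)) ^ (2 ^ J) :=
          Real.exp_nat_mul _ _
        rw [Real.exp_log (by norm_num)] at h3
        rw [← h3]
        push_cast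
        ring_nf
      rw [h2]
      refine lt_of_le_of_lt hz1 (Real.exp_lt_exp.2 ?_)
      exact aux_d _ _ _ _ hvL hL0 hJL hl2
    exact_mod_cast h1
  · -- z^2 ≤ y
    have h1 : ((z ^ 2 : ℕ) : ℝ) ≤ y := by
      push_cast
      rw [hy_exp]
      calc (z : ℝ) ^ 2 ≤ (Real.exp v) ^ 2 := pow_le_pow_left₀ hz0.le hz1 2
        _ = Real.exp (2 * v) := by rw [← Real.exp_nat_mul]; norm_num
        _ ≤ Real.exp L := Real.exp_le_exp.2 (by linarith)
    exact_mod_cast h1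
  · -- Q^4 ≤ z
    calc Q ^ 4 ≤ Real.exp (120 * l) := by
          have h1 : Q ^ 4 = Real.exp (4 * Real.log Q) := by
            have h3 : Real.exp (((4 : ℕ) : ℝ) * Real.log Q) = (Real.exp (Real.log Q)) ^ 4 :=
              Real.exp_nat_mul _ _
            rw [Real.exp_log (by linarith)] at h3
            rw [← h3]
            norm_num
          rw [h1]
          exact Real.exp_le_exp.2 (by linarith)
      _ ≤ Real.exp (v / 2) := Real.exp_le_exp.2 hv120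
      _ ≤ z := hhalf
  · -- log z lower bound
    have h1 : L / (200 * b) = v / 2 := by rw [hv]; field_simp; norm_num
    rw [h1]
    exact hlz2
  · -- L^6 ≤ z
    calc L ^ 6 = Real.exp (6 * l) := by
          have h3 : Real.exp (((6 : ℕ) : ℝ) * l) = (Real.exp l) ^ 6 := Real.exp_nat_mul _ _
          rw [hl, Real.exp_log hL0] at h3
          rw [hl, ← h3]
          norm_num
      _ ≤ Real.exp (v / 2) := Real.exp_le_exp.2 (by linarith)
      _ ≤ z := hhalf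
  · -- E0
    unfold E0
    have h1 : (3 : ℝ) ^ ((J + 1) * (b + J + 1)) ≤
        Real.exp (2 * (((J : ℝ) + 1) * (b + J + 1))) := by
      have h3 : (3 : ℝ) ≤ Real.exp 2 := by
        have := Real.add_one_le_exp (2 : ℝ)
        linarith
      calc (3 : ℝ) ^ ((J + 1) * (b + J + 1)) ≤ (Real.exp 2) ^ ((J + 1) * (b + J + 1)) :=
            pow_le_pow_left₀ (by norm_num) h3 _
        _ = Real.exp (2 * (((J : ℝ) + 1) * (b + J + 1))) := by
            rw [← Real.exp_nat_mul]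
            push_cast
            ring_nf
    have h2 : (z : ℝ) ^ (2 * b + 4) ≤ Real.exp ((2 * b + 4) * v) := by
      calc (z : ℝ) ^ (2 * b + 4) ≤ (Real.exp v) ^ (2 * b + 4) := pow_le_pow_left₀ hz0.le hz1 _
        _ = Real.exp ((2 * b + 4) * v) := by
            rw [← Real.exp_nat_mul]
            push_cast
            ring_nf
    have h3 : (y : ℝ) ^ (1 / 10 : ℝ) = Real.exp (L / 10) := by
      rw [Real.rpow_def_of_pos hy0, ← hL]
      ring_nf
    rw [h3]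
    calc (3 : ℝ) ^ ((J + 1) * (b + J + 1)) * (z : ℝ) ^ (2 * b + 4)
        ≤ Real.exp (2 * (((J : ℝ) + 1) * (b + J + 1))) * Real.exp ((2 * b + 4) * v) :=
          mul_le_mul h1 h2 (by positivity) (Real.exp_pos _).le
      _ = Real.exp (2 * (((J : ℝ) + 1) * (b + J + 1)) + (2 * b + 4) * v) := by
          rw [← Real.exp_add]
      _ ≤ Real.exp (L / 10) := by
          apply Real.exp_le_exp.2
          have h4 : (2 * (b : ℝ) + 4) * v ≤ 6 * L / 100 := by
            have h5 : (2 * (b : ℝ) + 4) ≤ 6 * b := by linarith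
            calc (2 * (b : ℝ) + 4) * v ≤ (6 * b) * v :=
                  mul_le_mul_of_nonneg_right h5 (by linarith)
              _ = 6 * L / 100 := by rw [hv]; field_simp
          have h6 : ((J : ℝ) + 1) * (b + J + 1) ≤ (2 * l + 4) * (b0 + 7 + 32 * l) :=
            mul_le_mul (by linarith) (by linarith) (by positivity) (by positivity)
          linarith

end Pool.Agent.PP
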