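import Pool.Agent.Lib.MP_bae66e_nt.Mg.G096

/-!
# V7c: Vaughan's bound for the exponential sum over primes
-/

set_option autoImplicit false

namespace Pool.Agent.PP

open Finset MeasureTheory Real
open Pool.Agent.MC (ee expSum frac frac' arcSum fareySet)
open Pool.Agent.Lib.MP_bae66e_nt.AP3 (Rough rset dset prI KT flEta FLP cset Om0 xb prm)

open ArithmeticFunction

private lemma V7c_diff (y : ℕ) (hy : 1 ≤ y) :
    ∑ n ∈ Icc 1 y, (vonMangoldt n - th n) ≤ 2 * Real.sqrt y * Real.log y := by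
  have h1 := Chebyshev.abs_psi_sub_theta_le_sqrt_mul_log (x := (y : ℝ)) (by exact_mod_cast hy)
  have h2 : Chebyshev.psi (y : ℝ) = ∑ n ∈ Icc 1 y, vonMangoldt n := by
    unfold Chebyshev.psi
    rw [Nat.floor_natCast]
    rfl
  have h3 : Chebyshev.theta (y : ℝ) = ∑ n ∈ Icc 1 y, th n := by
    unfold Chebyshev.theta th
    rw [Nat.floor_natCast, Finset.sum_filter]
    rfl
  rw [Finset.sum_sub_distrib, ← h2, ← h3]
  exact (le_abs_self _).trans h1

/-- PROOF. `th n = Λ n` for primes and `Λ n - th n ≥ 0`; the difference of the two sums is at most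
`∑_{n ≤ y} (Λ n - th n) = ψ(y) - θ(y) ≤ ∑_{k=2}^{log y/log 2} θ(y^{1/k}) ≤ 2 √y (1 + log y)²` or so
(or Mathlib's `Chebyshev.abs_psi_sub_theta_le_sqrt_mul_log`: look for it), which is `≤ C (1 + log y)^4 y^(4/5)`.
`expSum f (y+1) = ∑_{n < y+1}` and the term `n = 0` is `0`. -/
theorem vaughan_th : ∃ C : ℝ, 0 < C ∧ ∀ (y q : ℕ) (a : ℤ) (α : ℝ), 1 ≤ q → q ≤ y →
    IsCoprime a (q : ℤ) → |α - a / q| ≤ 1 / (q : ℝ) ^ 2 →
    ‖expSum (fun n => ((th n : ℝ) : ℂ)) (y + 1) α‖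
      ≤ C * (1 + Real.log y) ^ 4 * (y / Real.sqrt q + (y : ℝ) ^ (4 / 5 : ℝ) + Real.sqrt (y * q)) := by
  obtain ⟨C, hC, h⟩ := vaughan_bound
  refine ⟨C + 2, by linarith, ?_⟩
  intro y q a α hq hqy ha hα
  have hy : 1 ≤ y := hq.trans hqy
  have hy1 : (1 : ℝ) ≤ y := by exact_mod_cast hy
  have hly : 0 ≤ Real.log y := Real.log_nonneg hy1
  have h1 := h y q a α hq hqy ha hα
  set L := 1 + Real.log y with hL
  have hL1 : 1 ≤ L := by linarith
  set E := (y : ℝ) / Real.sqrt q + (y : ℝ) ^ (4 / 5 : ℝ) + Real.sqrt (y * q) with hE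
  have hE45 : (y : ℝ) ^ (4 / 5 : ℝ) ≤ E := by
    have h1 : 0 ≤ (y : ℝ) / Real.sqrt q := by positivity
    have h2 : 0 ≤ Real.sqrt (y * q) := Real.sqrt_nonneg _
    linarith
  have hE0 : 0 ≤ E := by positivity
  have hexp : expSum (fun n => ((th n : ℝ) : ℂ)) (y + 1) α
      = ∑ n ∈ Icc 1 y, ((th n : ℝ) : ℂ) * ee (n * α) := by
    unfold MC.expSum
    rw [Finset.range_eq_Ico, Finset.sum_eq_sum_Ico_succ_bot (by omega)]
    have e : th 0 = 0 := by unfold th; rw [if_neg Nat.not_prime_zero]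
    simp only [e, Complex.ofReal_zero, zero_mul, zero_add]
    apply Finset.sum_congr _ fun _ _ => rfl
    ext n
    simp only [Finset.mem_Ico, Finset.mem_Icc]
    omega
  have hth : ∀ n, 0 ≤ vonMangoldt n - th n := by
    intro n
    unfold th
    split_ifs with hp
    · rw [vonMangoldt_apply_prime hp, sub_self]
    · rw [sub_zero]; exact vonMangoldt_nonneg
  have h2 : ‖∑ n ∈ Icc 1 y, ((vonMangoldt n : ℝ) : ℂ) * ee (n * α)
      - ∑ n ∈ Icc 1 y, ((th n : ℝ) : ℂ) * ee (n * α)‖ ≤ 2 * L ^ 4 * E := by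
    rw [← Finset.sum_sub_distrib]
    calc ‖∑ n ∈ Icc 1 y, (((vonMangoldt n : ℝ) : ℂ) * ee (n * α) - ((th n : ℝ) : ℂ) * ee (n * α))‖
        ≤ ∑ n ∈ Icc 1 y, ‖((vonMangoldt n : ℝ) : ℂ) * ee (n * α) - ((th n : ℝ) : ℂ) * ee (n * α)‖ :=
          norm_sum_le _ _
      _ = ∑ n ∈ Icc 1 y, (vonMangoldt n - th n) := by
          apply Finset.sum_congr rfl
          intro n _
          rw [← sub_mul, norm_mul, MC.norm_ee, mul_one, ← Complex.ofReal_sub, Complex.norm_real,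
            Real.norm_of_nonneg (hth n)]
      _ ≤ 2 * Real.sqrt y * Real.log y := V7c_diff y hy
      _ ≤ 2 * E * L := by
          have h3 : Real.sqrt y ≤ E := by
            refine le_trans ?_ hE45
            rw [Real.sqrt_eq_rpow]
            exact Real.rpow_le_rpow_of_exponent_le hy1 (by norm_num)
          apply mul_le_mul _ (by linarith) hly (by positivity)
          linarith
      _ ≤ 2 * L ^ 4 * E := by
          have h4 : L ≤ L ^ 4 := by
            calc L = L ^ 1 := (pow_one L).symm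
              _ ≤ L ^ 4 := pow_le_pow_right₀ hL1 (by norm_num)
          have := mul_le_mul_of_nonneg_right h4 hE0
          linarith
  rw [hexp]
  have h3 : ‖∑ n ∈ Icc 1 y, ((th n : ℝ) : ℂ) * ee (n * α)‖
      ≤ ‖∑ n ∈ Icc 1 y, ((vonMangoldt n : ℝ) : ℂ) * ee (n * α)‖
        + ‖∑ n ∈ Icc 1 y, ((vonMangoldt n : ℝ) : ℂ) * ee (n * α)
          - ∑ n ∈ Icc 1 y, ((th n : ℝ) : ℂ) * ee (n * α)‖ := by
    have := norm_sub_le (∑ n ∈ Icc 1 y, ((vonMangoldt n : ℝ) : ℂ) * ee (n * α))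
      (∑ n ∈ Icc 1 y, ((vonMangoldt n : ℝ) : ℂ) * ee (n * α)
          - ∑ n ∈ Icc 1 y, ((th n : ℝ) : ℂ) * ee (n * α))
    rwa [sub_sub_cancel] at this
  refine h3.trans ((add_le_add h1 h2).trans (le_of_eq ?_))
  ring

end Pool.Agent.PP
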